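import Pool.Agent.Lib.MP_36fb43_ag.Sc.Main

/-! A smooth threefold in `ℙ⁵` that is not quadratically normal is a Palatini threefold. -/

namespace Pool.Agent.Results.MP_36fb43_ag.Full

open CategoryTheory AlgebraicGeometry Pool.Agent.Lib.MP_36fb43_ag.Sc

theorem result (X : Scheme.{0}) [IsIntegral X] (ι : X ⟶ P5) [IsClosedImmersion ι]
    [SmoothOfRelativeDimension 3 (ι ≫ strMap)] (h : ¬ QuadNormal ι) :
    ∃ W : Submodule ℂ (LinearMap.BilinForm ℂ (Fin 6 → ℂ)), (∀ ω ∈ W, ω.IsAlt) ∧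
      Module.finrank ℂ W = 4 ∧
      ∀ (v : Fin 6 → ℂ) (hv : v ≠ 0), pt v hv ∈ Set.range ι ↔ InKernel W v :=
  main ι h

end Pool.Agent.Results.MP_36fb43_ag.Full
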